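import Mathlib
import Pool.Agent.Helper47K9.LK.Main

/-!
# Linked pairs in dimension `d + 1` are globally linked in dimension `d`

Let `{u, v}` be a pair of vertices of a finite graph `G`. If `{u, v}` is linked in `G` in
`ℝ^(d+1)`, that is, if `r_{d+1}(G + uv) = r_{d+1}(G)` for the rank function `r_{d+1}` of the
generic rigidity matroid in dimension `d + 1`, then `{u, v}` is globally linked in `G` in `ℝ^d`.

Idea of the proof. Let `p` be generic in `ℝ^d`, let `(G, q)` be equivalent to `(G, p)` and let
`z : V → ℝ` be generic over `p`. As `{u, v}` is linked in `ℝ^(d+1)`, there is a stress `ω^z` of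
`(G + uv, (p, z))` with value `-1` at `uv`. For two choices `z`, `z'` the difference
`ω^z - ω^{z'}` is a stress of `(G, p)`, hence of `(G, q)`, so that `r = Ω^z q` does not depend on
`z`. Now `zᵀ r = (Ω^z z)ᵀ q = 0` for a dense set of `z`, so `r = 0`: all `ω^z` are stresses of
`(G + uv, q)`, and comparing the energies of `p` and `q` gives `|q_u - q_v| = |p_u - p_v|`.
-/

set_option autoImplicit false

namespace Pool.Agent.Results.MP_32f1bc_co.LinkedPairs

universe u

/-- A realization `p : V → ℝ^d` is generic if its `d |V|` coordinates are algebraically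
independent over `ℚ`. -/
def IsGeneric {V : Type u} {d : ℕ} (p : V → EuclideanSpace ℝ (Fin d)) : Prop :=
  AlgebraicIndependent ℚ (fun i : V × Fin d => p i.1 i.2)

open Classical in
/-- The row of the pair `xy` in the rigidity matrix of the realization `p`: it has `p x - p y` in
the `d` columns of `x`, `p y - p x` in those of `y`, and zeros elsewhere. -/
noncomputable def row {V : Type u} {d : ℕ} (p : V → EuclideanSpace ℝ (Fin d)) (x y : V) :
    V × Fin d → ℝ := fun c =>
  if c.1 = x then p x c.2 - p y c.2 else if c.1 = y then p y c.2 - p x c.2 else 0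

/-- The rank of the rigidity matrix of `(G, p)`: the dimension of the span of the rows of the
edges of `G`. -/
noncomputable def matrixRank {V : Type u} {d : ℕ} (G : SimpleGraph V)
    (p : V → EuclideanSpace ℝ (Fin d)) : ℕ :=
  Module.finrank ℝ (Submodule.span ℝ {s : V × Fin d → ℝ | ∃ x y, G.Adj x y ∧ s = row p x y})

/-- The rank `r_d(G)` of (the edge set of) `G` in the generic rigidity matroid in dimension `d`:
the rank of the rigidity matrix of a generic realization (it does not depend on the generic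
realization, see the first part of the theorem). -/
noncomputable def r {V : Type u} (d : ℕ) (G : SimpleGraph V) : ℕ :=
  sSup {k | ∃ p : V → EuclideanSpace ℝ (Fin d), IsGeneric p ∧ k = matrixRank G p}

/-- The pair `{u, v}` is linked in `G` in `ℝ^d`: `r_d(G + uv) = r_d(G)`. -/
def Linked {V : Type u} (d : ℕ) (G : SimpleGraph V) (u v : V) : Prop :=
  r d (G ⊔ SimpleGraph.edge u v) = r d G

/-- The realizations `(G, p)` and `(G, q)` are equivalent. -/
def Equivalent {V : Type u} {d : ℕ} (G : SimpleGraph V) (p q : V → EuclideanSpace ℝ (Fin d)) :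
    Prop :=
  ∀ x y, G.Adj x y → ‖p x - p y‖ = ‖q x - q y‖

/-- The pair `{u, v}` is globally linked in `G` in `ℝ^d`. -/
def GloballyLinked {V : Type u} (d : ℕ) (G : SimpleGraph V) (u v : V) : Prop :=
  ∀ p : V → EuclideanSpace ℝ (Fin d), IsGeneric p →
    ∀ q : V → EuclideanSpace ℝ (Fin d), Equivalent G p q → ‖p u - p v‖ = ‖q u - q v‖

namespace Aux

open Pool.Agent.H135R2.VS Pool.Agent.Helper47K9.LK

variable {V : Type u} {d : ℕ}

/-- The underlying configuration. -/
def cf (p : V → EuclideanSpace ℝ (Fin d)) : Conf d V := fun i a => p i a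

theorem gen_cf {p : V → EuclideanSpace ℝ (Fin d)} (hp : IsGeneric p) : Gen (cf p) := hp

theorem norm_sq_cf (p : V → EuclideanSpace ℝ (Fin d)) (x y : V) :
    ‖p x - p y‖ ^ 2 = fl (cf p) (cf p) x y := by
  rw [EuclideanSpace.norm_sq_eq]
  unfold fl cf
  refine Finset.sum_congr rfl fun a _ => ?_
  rw [Real.norm_eq_abs, sq_abs, PiLp.sub_apply, sq]

theorem norm_eq_iff (p q : V → EuclideanSpace ℝ (Fin d)) (x y : V) :
    ‖p x - p y‖ = ‖q x - q y‖ ↔ fl (cf q) (cf q) x y = fl (cf p) (cf p) x y := by
  rw [← norm_sq_cf, ← norm_sq_cf]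
  constructor
  · intro h
    rw [h]
  · intro h
    exact ((sq_eq_sq₀ (norm_nonneg (q x - q y)) (norm_nonneg (p x - p y))).1 h).symm

theorem row_eq [Fintype V] [DecidableEq V] (G : SimpleGraph V)
    (p : V → EuclideanSpace ℝ (Fin d)) {x y : V} (h : G.Adj x y) :
    row p x y = evm (Rp d (⊥ : SF) G) (unc (cf p)) (x, y) := by
  funext c
  simp only [evm, Matrix.map_apply, Rp, Matrix.of_apply, if_pos h, row]
  by_cases h1 : c.1 = x
  · have h2 : c.1 ≠ y := fun h2 => h.ne (h1.symm.trans h2)
    simp [h1, h.ne, unc, cf]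
  · by_cases h2 : c.1 = y
    · simp [h2, h.ne', unc, cf]
    · simp [h1, h2]

theorem span_eq [Fintype V] [DecidableEq V] (G : SimpleGraph V)
    (p : V → EuclideanSpace ℝ (Fin d)) :
    Submodule.span ℝ {s : V × Fin d → ℝ | ∃ x y, G.Adj x y ∧ s = row p x y} =
      Submodule.span ℝ (Set.range (evm (Rp d (⊥ : SF) G) (unc (cf p))).row) := by
  apply le_antisymm
  · rw [Submodule.span_le]
    rintro _ ⟨x, y, h, rfl⟩
    rw [row_eq G p h]
    exact Submodule.subset_span ⟨(x, y), rfl⟩
  · rw [Submodule.span_le]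
    rintro _ ⟨⟨x, y⟩, rfl⟩
    by_cases h : G.Adj x y
    · exact Submodule.subset_span ⟨x, y, h, (row_eq G p h).symm⟩
    · have : (evm (Rp d (⊥ : SF) G) (unc (cf p))).row (x, y) = 0 := by
        funext c
        simp [evm, Matrix.map_apply, Rp, Matrix.of_apply, h]
      rw [this]
      exact zero_mem _

theorem matrixRank_eq [Fintype V] [DecidableEq V] (G : SimpleGraph V)
    (p : V → EuclideanSpace ℝ (Fin d)) :
    matrixRank G p = (evm (Rp d (⊥ : SF) G) (unc (cf p))).rank := by
  rw [Matrix.rank_eq_finrank_span_row, matrixRank, span_eq]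

theorem matrixRank_generic [Finite V] (G : SimpleGraph V) {p q : V → EuclideanSpace ℝ (Fin d)}
    (hp : IsGeneric p) (hq : IsGeneric q) : matrixRank G p = matrixRank G q := by
  classical
  have := Fintype.ofFinite V
  rw [matrixRank_eq, matrixRank_eq]
  apply le_antisymm
  · exact rank_le_generic _ (bot_of_rat (gen_cf hq))
  · exact rank_le_generic _ (bot_of_rat (gen_cf hp))

theorem r_eq [Finite V] (G : SimpleGraph V) {p : V → EuclideanSpace ℝ (Fin d)}
    (hp : IsGeneric p) : matrixRank G p = r d G := by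
  have h1 : {k | ∃ p : V → EuclideanSpace ℝ (Fin d), IsGeneric p ∧ k = matrixRank G p} =
      {matrixRank G p} := by
    ext k
    constructor
    · rintro ⟨q, hq, rfl⟩
      exact matrixRank_generic G hq hp
    · rintro rfl
      exact ⟨p, hp, rfl⟩
  rw [r, h1, csSup_singleton]

theorem row_dot [Fintype V] [DecidableEq V] (p : V → EuclideanSpace ℝ (Fin d)) (x y : V)
    (hxy : x ≠ y) (m : Conf d V) : row p x y ⬝ᵥ unc m = fl (cf p) m x y := by
  have h : (SimpleGraph.edge x y).Adj x y := by
    rw [SimpleGraph.edge_adj]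
    exact ⟨Or.inl ⟨rfl, rfl⟩, hxy⟩
  rw [row_eq _ p h]
  exact evm_Rp (⊥ : SF) _ (cf p) m x y h

theorem dep_of_mem [Fintype V] [DecidableEq V] (G : SimpleGraph V)
    (p : V → EuclideanSpace ℝ (Fin d)) {s : V × Fin d → ℝ}
    (hs : s ∈ Submodule.span ℝ {s : V × Fin d → ℝ | ∃ x y, G.Adj x y ∧ s = row p x y}) :
    ∃ c : V → V → ℝ, (∀ i j, ¬ G.Adj i j → c i j = 0) ∧
      ∀ m : Conf d V, s ⬝ᵥ unc m = ∑ i, ∑ j, c i j * fl (cf p) m i j := by
  induction hs using Submodule.span_induction with
  | mem s hs =>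
    obtain ⟨x, y, h, rfl⟩ := hs
    refine ⟨fun i j => if i = x ∧ j = y then 1 else 0, ?_, fun m => ?_⟩
    · intro i j hij
      refine if_neg ?_
      rintro ⟨rfl, rfl⟩
      exact hij h
    · rw [row_dot p x y h.ne]
      rw [Finset.sum_eq_single x, Finset.sum_eq_single y]
      · simp
      · intro j _ hj
        simp [hj]
      · simp
      · intro i _ hi
        simp [hi]
      · simp
  | zero => exact ⟨0, fun _ _ _ => rfl, fun m => by simp⟩
  | add s s' _ _ h h' =>
    obtain ⟨c, hc, h⟩ := h
    obtain ⟨c', hc', h'⟩ := h'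
    refine ⟨c + c', fun i j hij => by simp [hc i j hij, hc' i j hij], fun m => ?_⟩
    rw [add_dotProduct, h, h', ← Finset.sum_add_distrib]
    refine Finset.sum_congr rfl fun i _ => ?_
    rw [← Finset.sum_add_distrib]
    refine Finset.sum_congr rfl fun j _ => ?_
    simp only [Pi.add_apply]
    ring
  | smul a s _ h =>
    obtain ⟨c, hc, h⟩ := h
    refine ⟨a • c, fun i j hij => by simp [hc i j hij], fun m => ?_⟩
    rw [smul_dotProduct, h, smul_eq_mul, Finset.mul_sum]
    refine Finset.sum_congr rfl fun i _ => ?_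
    rw [Finset.mul_sum]
    refine Finset.sum_congr rfl fun j _ => ?_
    simp only [Pi.smul_apply, smul_eq_mul]
    ring

theorem dep_of_linked [Fintype V] [DecidableEq V] {G : SimpleGraph V} {u v : V} (huv : u ≠ v)
    (h : Linked d G u v) {p : V → EuclideanSpace ℝ (Fin d)} (hp : IsGeneric p) :
    Dep G (cf p) u v := by
  have h1 : matrixRank (G ⊔ SimpleGraph.edge u v) p = matrixRank G p := by
    rw [r_eq _ hp, r_eq _ hp]
    exact h
  have h2 : Submodule.span ℝ {s : V × Fin d → ℝ | ∃ x y, G.Adj x y ∧ s = row p x y} =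
      Submodule.span ℝ {s : V × Fin d → ℝ | ∃ x y, (G ⊔ SimpleGraph.edge u v).Adj x y ∧
        s = row p x y} := by
    apply Submodule.eq_of_le_of_finrank_eq
    · apply Submodule.span_mono
      rintro s ⟨x, y, hxy, hs⟩
      exact ⟨x, y, Or.inl hxy, hs⟩
    · exact h1.symm
  have h3 : row p u v ∈ Submodule.span ℝ {s : V × Fin d → ℝ | ∃ x y, G.Adj x y ∧
      s = row p x y} := by
    rw [h2]
    refine Submodule.subset_span ⟨u, v, Or.inr ?_, rfl⟩
    rw [SimpleGraph.edge_adj]
    exact ⟨Or.inl ⟨rfl, rfl⟩, huv⟩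
  obtain ⟨c, hc, hc'⟩ := dep_of_mem G p h3
  exact ⟨c, hc, fun m => by rw [← hc' m, row_dot p u v huv]⟩

theorem globallyLinked [Finite V] (G : SimpleGraph V) (u v : V) (h : Linked (d + 1) G u v) :
    GloballyLinked d G u v := by
  classical
  have := Fintype.ofFinite V
  intro p hp q hq
  by_cases huv : u = v
  · rw [huv, sub_self, sub_self]
  rw [norm_eq_iff]
  refine main G u v (fun x hx => ?_) (gen_cf hp) fun i j hij => (norm_eq_iff p q i j).1 (hq i j hij)
  exact dep_of_linked (d := d + 1) huv h (p := fun i => WithLp.toLp 2 (x i)) hx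

end Aux

/-- (1) The rank of the rigidity matrix of a generic realization of a finite graph `G` in `ℝ^d`
is `r_d(G)`, for every generic realization. (2) For every `d`, every finite graph `G` and every
pair `{u, v}` of vertices of `G`: if `{u, v}` is linked in `G` in `ℝ^(d+1)`, then `{u, v}` is
globally linked in `G` in `ℝ^d`. -/
theorem result :
    (∀ (V : Type u) [Finite V] (d : ℕ) (G : SimpleGraph V) (p : V → EuclideanSpace ℝ (Fin d)),
      IsGeneric p → matrixRank G p = r d G) ∧
    ∀ (V : Type u) [Finite V] (d : ℕ) (G : SimpleGraph V) (u v : V),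
      Linked (d + 1) G u v → GloballyLinked d G u v :=
  ⟨fun _ _ _ G _ hp => Aux.r_eq G hp, fun _ _ _ G u v h => Aux.globallyLinked G u v h⟩

end Pool.Agent.Results.MP_32f1bc_co.LinkedPairs
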